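import Pool.Agent.K3h88.LCT.Final
import Pool.Agent.K3h88.LCM.Maz

/-!
# Contractible 4-manifolds without locally constructible triangulations

Let `W` be a contractible topological 4-manifold with connected nonempty boundary `∂W`. If
`π₁(∂W)` has a nontrivial homomorphism to the group `SU(2)` of unit quaternions, for example if it
is isomorphic to the group `MazurGroup` below, or to the fundamental group of the Brieskorn sphere
`Σ(2,5,7)` or `Σ(2,3,13)`, then `W` has no locally constructible triangulation.

`MazurGroup` is the fundamental group of the boundary of Mazur's 4-manifold `W`, in the presentation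
read off its Kirby diagram (a dotted circle and a 0-framed curve `K` which runs through it three
times and has one clasp); the boundary is `Σ(2,5,7)` (Akbulut and Kirby). Hence no triangulation of
Mazur's manifold is locally constructible.

Idea. Let `K` be a locally constructible triangulation of `W`. Singular cohomology gives
`χ(K) = 1`; local homology and invariance of domain identify the boundary of the complex `K` with
`∂W` and give `χ(∂K) = 0`. Seen from the boundary, `K` is made of `∂K` by adding `n` generators and
`n` relations to the fundamental group, with nonsingular exponent matrix mod 2, because the gluings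
along ridges give a list of triangles which generate all relations. A homomorphism
`π₁(|∂K|) → SU(2)` extends to the new generators in such a way that the relations hold (Borsuk-Ulam
theorem for a product of `n` spheres of dimension 3), so that it factors through `π₁(|K|)`, which is
trivial.
-/

set_option autoImplicit false

namespace Pool.Agent.Results.MP_07bfe7_gt.ContractibleManifolds

open Finset Quaternion

open scoped Manifold

/-! A pure 4-dimensional simplicial complex `K` is given by the finite set `F` of its facets, which
are sets of five vertices; its faces are the nonempty subsets of the facets. -/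

/-- The faces of the complex generated by the sets in `F`: their nonempty subsets. -/
def faces {V : Type} [DecidableEq V] (F : Finset (Finset V)) : Finset (Finset V) :=
  (F.biUnion (fun A => A.powerset)).filter (fun s => s.Nonempty)

/-- The tetrahedra (faces with four vertices) which lie in exactly `k` facets. -/
def walls {V : Type} [DecidableEq V] (F : Finset (Finset V)) (k : ℕ) : Finset (Finset V) :=
  (faces F).filter (fun τ => τ.card = 4 ∧ (F.filter (fun A => τ ⊆ A)).card = k)

/-- The facets are thought of as disjoint simplices and glued along the tetrahedra in `S`: then the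
copy of the face `s` in the facet `A` and the copy of `s` in the facet `B` become the same face if
and only if `A` and `B` are joined by a chain of facets in which consecutive ones have a common
tetrahedron which belongs to `S` and contains `s`. -/
def SameFace {V : Type} [DecidableEq V] (F S : Finset (Finset V)) (s A B : Finset V) : Prop :=
  Relation.ReflTransGen
    (fun A B => A ∈ F ∧ B ∈ F ∧ ∃ τ ∈ S, s ⊆ τ ∧ τ ⊆ A ∧ τ ⊆ B) A B

/-- The complex `K` with the facets in `F` is locally constructible. -/
def LocallyConstructible {V : Type} [DecidableEq V] (F : Finset (Finset V)) : Prop :=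
  -- the complex is pure of dimension 4, and every tetrahedron lies in at most two facets
  F.Nonempty ∧ (∀ A ∈ F, A.card = 5) ∧
  (∀ τ : Finset V, τ.card = 4 → (F.filter (fun A => τ ⊆ A)).card ≤ 2) ∧
  ∃ (T : Finset (Finset V)) (k : ℕ) (σ : Fin k → Finset V),
    -- the facets, glued along the tetrahedra in `T`, form a tree of 4-simplices
    (T ⊆ walls F 2 ∧ T.card + 1 = F.card ∧ ∀ A ∈ F, ∀ B ∈ F, SameFace F T ∅ A B) ∧
    -- the other interior tetrahedra are `σ 0, ..., σ (k - 1)`, in the order of the gluings
    (Function.Injective σ ∧ (∀ i, σ i ∈ walls F 2 ∧ σ i ∉ T) ∧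
      ∀ τ ∈ walls F 2, τ ∈ T ∨ ∃ i, σ i = τ) ∧
    -- before step `i` the two copies of `σ i` have a triangle in common
    (∀ i, ∃ ρ ⊆ σ i, ρ.card = 3 ∧ ∀ A ∈ F, ∀ B ∈ F, σ i ⊆ A → σ i ⊆ B →
      SameFace F (T ∪ (univ.filter (fun j => j < i)).image σ) ρ A B) ∧
    -- the result of all the gluings is `K`
    ∀ s : Finset V, s.Nonempty → ∀ A ∈ F, ∀ B ∈ F, s ⊆ A → s ⊆ B → SameFace F (walls F 2) s A B

/-- The underlying space of the complex generated by the sets in `S` (barycentric coordinates), with
the topology of a subspace of `V → ℝ`. -/
def Realization {V : Type} (S : Finset (Finset V)) : Type :=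
  {x : V → ℝ // (∀ v, 0 ≤ x v) ∧ ∃ s ∈ S, (∀ v, v ∉ s → x v = 0) ∧ ∑ v ∈ s, x v = 1}

instance {V : Type} (S : Finset (Finset V)) : TopologicalSpace (Realization S) :=
  inferInstanceAs (TopologicalSpace
    {x : V → ℝ // (∀ v, 0 ≤ x v) ∧ ∃ s ∈ S, (∀ v, v ∉ s → x v = 0) ∧ ∑ v ∈ s, x v = 1})

/-- The relators of the group `⟨x, y, z, h | h central, x² = h⁻¹, y ^ q = h, z ^ r = h², x y z = 1⟩`. -/
def brieskornRelators (q r : ℕ) : Set (FreeGroup (Fin 4)) :=
  let x := FreeGroup.of 0
  let y := FreeGroup.of 1
  let z := FreeGroup.of 2
  let h := FreeGroup.of 3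
  {x * h * x⁻¹ * h⁻¹, y * h * y⁻¹ * h⁻¹, z * h * z⁻¹ * h⁻¹, x ^ 2 * h, y ^ q * h⁻¹,
    z ^ r * h⁻¹ ^ 2, x * y * z}

/-- The group `⟨x, y, z, h | h central, x² = h⁻¹, y ^ q = h, z ^ r = h², x y z = 1⟩`. If
`q r - 2 r - 4 q = 1`, this is the fundamental group of the Brieskorn sphere `Σ(2, q, r)`: the
Seifert fibration of `Σ(2, q, r)` has the invariants `(2, 1), (q, -1), (r, -2)`. -/
def BrieskornGroup (q r : ℕ) : Type := PresentedGroup (brieskornRelators q r)

instance (q r : ℕ) : Group (BrieskornGroup q r) :=
  inferInstanceAs (Group (PresentedGroup (brieskornRelators q r)))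

/-- The relators of the fundamental group of the boundary of Mazur's manifold `W`, read off its
Kirby diagram.

The diagram. The complement of the dotted circle is `S¹ × ℝ²`, with the coordinates `x` modulo `12`,
`y`, and the height; the half-plane `x = 0` belongs to the disc spanned by the dotted circle. The
curve `K`, seen from above, is the closed polygon with the vertices
`(0,1), (8,1), (8,2), (12,2) = (0,2), (5,2), (5,4), (0,4) = (12,4), (9,4), (9,5), (3,5), (3,3),
(7,3), (7,0), (10,0), (10,1), (12,1) = (0,1)`.
Its crossings are `(3,4), (5,3), (7,1)`, and there the vertical segment is above the horizontal one.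
The first two of them are a clasp of the piece of `K` from `(0,2)` to `(0,4)` with the piece from
`(12,4)` to `(12,1)`. So `K` runs through the dotted circle three times: at `(0,1)` and `(0,2)` in
the direction of `x`, at `(0,4)` in the opposite direction.

The generators. The base point is above the line `x = 0`. The loop `t` runs above `K` once in the
direction of `x`. The other generators are the Wirtinger generators (the loop passes under the
strand from the right to the left) of the arcs of `K`, cut at `x = 0` and where they pass under:
`a` from `(0,1)` to `(7,1)`, `a'` from `(7,1)` to `(12,2)`, `b` from `(0,2)` to `(3,4)`, `b'` from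
`(3,4)` to `(0,4)`, `c` from `(12,4)` to `(5,3)`, `c'` from `(5,3)` to `(12,1)`.

The relators. Three for the points where `K` passes `x = 12`, which is `x = 0`; three for the
crossings `(7,1), (5,3), (3,4)`; one for the sphere `x = 0` in `S¹ × S²`; and the curve parallel to
`K` with framing `0`, along which the handle is attached (the last factor `a` corrects the
blackboard framing, which is `-1`). -/
def mazurRelators : Set (FreeGroup (Fin 7)) :=
  let t := FreeGroup.of 0
  let a := FreeGroup.of 1
  let a' := FreeGroup.of 2
  let b := FreeGroup.of 3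
  let b' := FreeGroup.of 4
  let c := FreeGroup.of 5
  let c' := FreeGroup.of 6
  {t * b * t⁻¹ * a'⁻¹, t * b' * t⁻¹ * c⁻¹, t * a * t⁻¹ * c'⁻¹,
    c'⁻¹ * a * c' * a'⁻¹, b * c * b⁻¹ * c'⁻¹, c * b * c⁻¹ * b'⁻¹,
    a * b * b'⁻¹, c' * t * c⁻¹ * t⁻¹ * b⁻¹ * t * a}

/-- The fundamental group of the boundary of Mazur's manifold, in the presentation read off its
Kirby diagram. -/
def MazurGroup : Type := PresentedGroup mazurRelators

instance : Group MazurGroup := inferInstanceAs (Group (PresentedGroup mazurRelators))

/-- The complex with the set of facets `F` is a triangulation of the space `W`. -/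
def Triangulates {V : Type} (F : Finset (Finset V)) (W : Type) [TopologicalSpace W] : Prop :=
  Nonempty (Realization F ≃ₜ W)

/-- The group `Γ` has a nontrivial homomorphism to the group `SU(2)` of unit quaternions. -/
def Represented (Γ : Type) [Group Γ] : Prop :=
  ∃ (φ : Γ →* Metric.sphere (0 : ℍ[ℝ]) 1) (γ : Γ), φ γ ≠ 1

theorem represented_of {Γ : Type} [Group Γ] {q r : ℕ}
    (h1 : ∃ ψ : BrieskornGroup q r →* Metric.sphere (0 : ℍ[ℝ]) 1, ∃ w, ψ w ≠ 1)
    (e : Γ ≃* BrieskornGroup q r) : Represented Γ := by
  obtain ⟨ψ, w, hw⟩ := h1
  refine ⟨ψ.comp e.toMonoidHom, e.symm w, ?_⟩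
  simpa using hw

theorem represented_mazur {Γ : Type} [Group Γ] (e : Γ ≃* MazurGroup) : Represented Γ := by
  obtain ⟨ψ, hψ⟩ := K3h88.LCM.maz_rep
  exact ⟨MonoidHom.comp (M := Γ) (N := MazurGroup) ψ e.toMonoidHom,
    e.symm (PresentedGroup.of (rels := mazurRelators) 1), fun h => hψ (by
      rw [MonoidHom.comp_apply] at h
      have h1 : e.toMonoidHom (e.symm (PresentedGroup.of (rels := mazurRelators) 1)) =
        PresentedGroup.of (rels := mazurRelators) 1 := e.apply_symm_apply _
      rw [h1] at h
      exact h)⟩

/-- Let `W` be a contractible 4-manifold with connected boundary `∂W` such that the fundamental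
group of `∂W` has a nontrivial homomorphism to `SU(2)`, for example the group `MazurGroup` of the
boundary of Mazur's manifold, or the fundamental group of the Brieskorn sphere `Σ(2, 5, 7)` or
`Σ(2, 3, 13)`. Then no locally constructible complex is a triangulation of `W`. -/
theorem result (W : Type) [TopologicalSpace W] [ChartedSpace (EuclideanHalfSpace 4) W]
    [ContractibleSpace W] (hW : IsConnected ((𝓡∂ 4).boundary W)) (b : (𝓡∂ 4).boundary W)
    (hb : Represented (FundamentalGroup ((𝓡∂ 4).boundary W) b) ∨
      Nonempty (FundamentalGroup ((𝓡∂ 4).boundary W) b ≃* MazurGroup) ∨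
      Nonempty (FundamentalGroup ((𝓡∂ 4).boundary W) b ≃* BrieskornGroup 5 7) ∨
      Nonempty (FundamentalGroup ((𝓡∂ 4).boundary W) b ≃* BrieskornGroup 3 13)) :
    ¬ ∃ (n : ℕ) (F : Finset (Finset (Fin n))), LocallyConstructible F ∧ Triangulates F W := by
  rintro ⟨n, F, hF, ⟨h⟩⟩
  have key : ¬ Represented (FundamentalGroup ((𝓡∂ 4).boundary W) b) := by
    rintro ⟨φ, γ, hφ⟩
    exact hφ (K3h88.LCT.final hW (F := F) hF h b φ γ)
  rcases hb with hb | ⟨⟨e⟩⟩ | ⟨⟨e⟩⟩ | ⟨⟨e⟩⟩
  · exact key hb
  · exact key (represented_mazur e)
  · obtain ⟨ψ, hψ⟩ := K3h88.LCM.rep57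
    exact key (represented_of ⟨ψ, _, hψ⟩ e)
  · obtain ⟨ψ, hψ⟩ := K3h88.LCM.rep313
    exact key (represented_of ⟨ψ, _, hψ⟩ e)

end Pool.Agent.Results.MP_07bfe7_gt.ContractibleManifolds
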